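import Pool.Agent.Lib.MP_96637b_nt.LPMain

open Pool.Agent.Lib.MP_96637b_nt

/-- In `G = SL₂(ℝ) × SL₂(ℝ) × SL₂(ℂ)` there are two torsion-free irreducible uniform lattices
that are L-equivalent (for L-packets as constructed by Langlands, and as orbits of the adjoint
group), not representation equivalent, and not related by any automorphism of `G`, even modulo
the centre. -/
theorem Pool.Agent.Results.MP_96637b_nt.LanglandsPackets.result :
    ∃ Γ₁ Γ₂ : Subgroup GG,
      IsUniformLattice Γ₁ ∧ IsUniformLattice Γ₂ ∧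
      IsTorsionFreeSubgroup Γ₁ ∧ IsTorsionFreeSubgroup Γ₂ ∧
      InjectsInFactors Γ₁ ∧ InjectsInFactors Γ₂ ∧
      (∀ φ : GG ≃* GG,
        (Γ₁ ⊔ Subgroup.center GG).map (φ : GG →* GG) ≠ Γ₂ ⊔ Subgroup.center GG) ∧
      Nonempty (InvariantProb Γ₁) ∧ Nonempty (InvariantProb Γ₂) ∧
      ∀ (m₁ : InvariantProb Γ₁) (m₂ : InvariantProb Γ₂),
        (∀ π : UnitaryDual GG, langlandsMult π m₁.regular = langlandsMult π m₂.regular) ∧
        (∀ π : UnitaryDual GG, packetMult π m₁.regular = packetMult π m₂.regular) ∧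
        ¬ m₁.regular.Equivalent m₂.regular :=
  Pool.Agent.Lib.MP_96637b_nt.LP.main
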